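import Pool.Agent.Helper27.LZ.R

/-!
# All T-words: the functions at `η = √3` and the path
-/

set_option autoImplicit false

namespace Pool.Agent.Helper27.TW

/-- `Im (sinh (x (1 + i η)) (1 - i η))` -/
noncomputable def js (x η : ℝ) : ℝ := Real.cosh x * Real.sin (η * x) - η * (Real.sinh x * Real.cos (η * x))

/-- `Re (sinh (x (1 + i η)) (1 - i η))` -/
noncomputable def rs (x η : ℝ) : ℝ := Real.sinh x * Real.cos (η * x) + η * (Real.cosh x * Real.sin (η * x))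

/-- `|sinh (x (1 + i √3)) / (1 + i √3)| ^ 2` -/
noncomputable def sst (x : ℝ) : ℝ := (Real.sinh x ^ 2 + Real.sin (√3 * x) ^ 2) / 4

open Classical in
/-- bound of the square of the sine of the argument -/
noncomputable def Q (x : ℝ) : ℝ := if 0 ≤ rs x (√3) then js x (√3) ^ 2 / (js x (√3) ^ 2 + rs x (√3) ^ 2) else 1

/-- what is needed of the path `l` -/
structure Path (l : ℝ → ℝ) (ε : ℝ) : Prop where
  eps : 0 < ε
  zero : ∀ x ≤ 17 / 50, l x = 0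
  mono : ∀ x x' : ℝ, x ≤ x' → l x ≤ l x'
  lip : ∀ x x' : ℝ, x ≤ x' → l x' - l x ≤ 2 * (x' - x)
  lt : ∀ x, 0 < x → l x < x
  mid : ∀ x, 33 / 100 ≤ x → x ≤ 9 / 5 → ∃ lam, 0 ≤ lam ∧ lam ≤ 2 ∧ (∀ x', x ≤ x' → x' ≤ 9 / 5 → lam * (x' - x) ≤ l x' - l x) ∧
    Real.sinh (l x + ε) ^ 2 + Q x + ε ≤ (1 + lam) ^ 2 / 4 * sst x
  top : ∀ x, 179 / 100 ≤ x → (∀ x', x ≤ x' → x' - x ≤ l x' - l x) ∧ 2 * Real.cosh (l x + ε) < Real.sinh x

/-- leaf TW5 -/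
structure Eta : Prop where
  s : ∀ x η : ℝ, 0 ≤ η → η ≤ √3 → 0 < x → √3 * x ≤ Real.pi → sst x ≤ (Real.sinh x ^ 2 + Real.sin (η * x) ^ 2) / (1 + η ^ 2)
  q : ∀ x η : ℝ, 0 ≤ η → η ≤ √3 → 0 < x → √3 * x ≤ Real.pi → 0 ≤ rs x (√3) → 0 ≤ js x η ∧ 0 ≤ rs x η ∧ js x η * rs x (√3) ≤ js x (√3) * rs x η

end Pool.Agent.Helper27.TW
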