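import Pool.Agent.Helper27.TW.Defs

/-!
# All T-words: the inequality (SS) for small `a`
-/

set_option autoImplicit false

namespace Pool.Agent.Helper27.TW

open Complex Pool.Agent.Helper27.LZ

/-! ### the point `ζ = a + i η a` -/

/-- the modulus of `D` -/
theorem normD_sq {a b : ℝ} (r : ℕ) : ‖D ((a : ℂ) + b * Complex.I) r‖ ^ 2 =
    (Real.sinh (r * a) ^ 2 + Real.sin (r * b) ^ 2) / (Real.sinh a ^ 2 + Real.sin b ^ 2) := by
  unfold D
  rw [norm_div, div_pow, norm_sinh_sq, nat_mul_zeta, norm_sinh_sq]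

theorem sin_le_eta {a η : ℝ} (ha : 0 < a) (hη : 0 ≤ η) : Real.sin (η * a) ^ 2 ≤ η ^ 2 * Real.sinh a ^ 2 := by
  have h1 : |Real.sin (η * a)| ≤ η * a := by
    have := Real.abs_sin_le_abs (x := η * a)
    rwa [abs_of_nonneg (by positivity : 0 ≤ η * a)] at this
  have h2 : a ≤ Real.sinh a := (Real.self_le_sinh_iff).2 ha.le
  have h4 : |Real.sin (η * a)| ≤ η * Real.sinh a := h1.trans (mul_le_mul_of_nonneg_left h2 hη)
  calc Real.sin (η * a) ^ 2 = |Real.sin (η * a)| ^ 2 := (sq_abs _).symm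
    _ ≤ (η * Real.sinh a) ^ 2 := pow_le_pow_left₀ (abs_nonneg _) h4 2
    _ = _ := by ring

theorem sinh_le_mul_cosh {a : ℝ} (ha : 0 ≤ a) : Real.sinh a ≤ a * Real.cosh a := by
  have h : MonotoneOn (fun x : ℝ => x * Real.cosh x - Real.sinh x) (Set.Ici 0) := by
    apply monotoneOn_of_deriv_nonneg (convex_Ici 0)
    · fun_prop
    · fun_prop
    · intro x hx
      rw [interior_Ici, Set.mem_Ioi] at hx
      have h1 : HasDerivAt (fun x : ℝ => x * Real.cosh x - Real.sinh x) (1 * Real.cosh x + x * Real.sinh x - Real.cosh x) x :=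
        ((hasDerivAt_id x).mul (Real.hasDerivAt_cosh x)).sub (Real.hasDerivAt_sinh x)
      rw [h1.deriv]
      have h2 : 0 ≤ Real.sinh x := Real.sinh_nonneg_iff.2 hx.le
      nlinarith
  have h1 := h (Set.mem_Ici.2 le_rfl) (Set.mem_Ici.2 ha) ha
  simp only [zero_mul, Real.sinh_zero, sub_zero] at h1
  linarith

theorem mul_cos_le_sin {b : ℝ} (hb : 0 ≤ b) (hb2 : b < Real.pi / 2) : b * Real.cos b ≤ Real.sin b := by
  have hc : 0 < Real.cos b := Real.cos_pos_of_mem_Ioo ⟨by linarith [Real.pi_pos], hb2⟩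
  have h := Real.le_tan hb hb2
  rw [Real.tan_eq_sin_div_cos, le_div_iff₀ hc] at h
  exact h

theorem eta_sq {η : ℝ} (hη : 0 ≤ η) (h3 : η ≤ √3) : η ^ 2 ≤ 3 := by
  have := pow_le_pow_left₀ hη h3 2
  rwa [Real.sq_sqrt (by norm_num)] at this

/-- lower bound of the modulus -/
theorem normD_ge {a η : ℝ} (ha : 0 < a) (hη : 0 ≤ η) (r : ℕ) :
    (Real.sinh (r * a) ^ 2 + Real.sin (η * (r * a)) ^ 2) / (1 + η ^ 2) ≤
      Real.sinh a ^ 2 * ‖D ((a : ℂ) + (η * a : ℝ) * Complex.I) r‖ ^ 2 := by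
  rw [normD_sq]
  have h1 := sin_le_eta ha hη
  have hs : 0 < Real.sinh a := Real.sinh_pos_iff.2 ha
  have h2 : (r : ℝ) * (η * a) = η * (r * a) := by ring
  rw [h2, mul_div_assoc', div_le_div_iff₀ (by positivity) (by positivity)]
  have h4 : 0 ≤ Real.sinh (r * a) ^ 2 + Real.sin (η * (r * a)) ^ 2 := by positivity
  nlinarith [mul_le_mul_of_nonneg_left h1 h4]

theorem normD_ge' {a η : ℝ} (ha : 0 < a) (hη : 0 ≤ η) (h3 : η ≤ √3) (r : ℕ) :
    Real.sinh (r * a) ^ 2 / 4 ≤ Real.sinh a ^ 2 * ‖D ((a : ℂ) + (η * a : ℝ) * Complex.I) r‖ ^ 2 := by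
  refine le_trans ?_ (normD_ge ha hη r)
  have h1 := eta_sq hη h3
  have h2 : 0 ≤ Real.sin (η * (r * a)) ^ 2 := sq_nonneg _
  have h4 : 0 ≤ Real.sinh (r * a) ^ 2 := sq_nonneg _
  rw [div_le_div_iff₀ (by norm_num) (by positivity)]
  nlinarith

theorem one_le_normD {a η : ℝ} (ha : 0 < a) (hη : 0 ≤ η) (h3 : η ≤ √3) {r : ℕ} (hr : 2 ≤ r) :
    1 ≤ ‖D ((a : ℂ) + (η * a : ℝ) * Complex.I) r‖ := by
  have h1 := normD_ge' ha hη h3 r
  have hs : 0 < Real.sinh a := Real.sinh_pos_iff.2 ha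
  have h2 := nat_mul_sinh_le ha.le r
  have hr2 : (2 : ℝ) ≤ r := by exact_mod_cast hr
  have h4 : 2 * Real.sinh a ≤ Real.sinh (r * a) := le_trans (by nlinarith) h2
  have h5 : (2 * Real.sinh a) ^ 2 ≤ Real.sinh (r * a) ^ 2 := pow_le_pow_left₀ (by positivity) h4 2
  have h6 : Real.sinh a ^ 2 * 1 ≤ Real.sinh a ^ 2 * ‖D ((a : ℂ) + (η * a : ℝ) * Complex.I) r‖ ^ 2 := by linarith
  have h7 := le_of_mul_le_mul_left h6 (by positivity)
  have h8 := norm_nonneg (D ((a : ℂ) + (η * a : ℝ) * Complex.I) r)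
  nlinarith

/-- the difference of `‖D ^ 2 - 1‖` and `‖D‖ ^ 2 - 1` -/
theorem norm_sq_sub_one_le (w : ℂ) (hw : 0 < ‖w‖) : ‖w ^ 2 - 1‖ ≤ ‖w‖ ^ 2 - 1 + 2 * (w.im ^ 2 / ‖w‖ ^ 2 + 1 / ‖w‖ ^ 2) := by
  have h1 := norm_sq_sub_one w
  have h0 : 0 < ‖w‖ ^ 2 := by positivity
  obtain ⟨G, hG⟩ : ∃ G, G = ‖w‖ ^ 2 := ⟨_, rfl⟩
  rw [← hG] at h1 h0 ⊢
  have h2 : w.im ^ 2 ≤ G := by
    rw [hG, Complex.sq_norm, Complex.normSq_apply]
    nlinarith [mul_self_nonneg w.re]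
  obtain ⟨J, hJ⟩ : ∃ J, J = w.im ^ 2 := ⟨_, rfl⟩
  rw [← hJ] at h1 h2 ⊢
  have hJ0 : 0 ≤ J := by rw [hJ]; positivity
  have h3 : 0 ≤ G - 1 + 2 * (J / G + 1 / G) := by
    have h4 : 0 ≤ J / G := by positivity
    have h5 : 1 ≤ G + 2 * (1 / G) := by
      rw [mul_one_div, ← sub_nonneg]
      have : G + 2 / G - 1 = ((G - 1) ^ 2 + G + 1) / G := by
        field_simp
        ring
      rw [this]
      positivity
    linarith
  apply le_of_sq_le_sq _ h3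
  rw [h1]
  have h4 : (G - 1 + 2 * (J / G + 1 / G)) ^ 2 - ((G - 1) ^ 2 + 4 * J) = 4 * ((J + 1) ^ 2 + (G - 1) * (J + 1) * G - J * G ^ 2) / G ^ 2 := by
    field_simp
    ring
  have h5 : 0 ≤ 4 * ((J + 1) ^ 2 + (G - 1) * (J + 1) * G - J * G ^ 2) / G ^ 2 := by
    apply div_nonneg _ (by positivity)
    nlinarith
  linarith

theorem D_im_nonneg {a b : ℝ} (ha : 0 ≤ a) (hb : 0 ≤ b) (h : Complex.sinh ((a : ℂ) + b * Complex.I) ≠ 0) (k : ℕ) (hk : k * b ≤ Real.pi) :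
    0 ≤ (D ((a : ℂ) + b * Complex.I) k).im := by
  induction k using Nat.strong_induction_on with
  | _ k ih =>
    match k with
    | 0 => simp [D_zero]
    | 1 => simp [D_one h]
    | k + 2 =>
      have h1 := ih k (by omega) (by
        refine le_trans ?_ hk
        push_cast
        nlinarith)
      rw [D_step h, Complex.add_im]
      have e : (2 * Complex.cosh (((k + 1 : ℕ) : ℂ) * ((a : ℂ) + b * Complex.I))).im = 2 * (Real.sinh ((k + 1 : ℕ) * a) * Real.sin ((k + 1 : ℕ) * b)) := by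
        rw [nat_mul_zeta]
        have := (cosh_re_im ((k + 1 : ℕ) * a) ((k + 1 : ℕ) * b)).2
        rw [Complex.mul_im, this]
        simp
      rw [e]
      have h2 : 0 ≤ Real.sinh ((k + 1 : ℕ) * a) := Real.sinh_nonneg_iff.2 (by positivity)
      have h3 : 0 ≤ Real.sin ((k + 1 : ℕ) * b) := by
        apply Real.sin_nonneg_of_nonneg_of_le_pi (by positivity)
        refine le_trans ?_ hk
        push_cast
        nlinarith
      positivity

/-- the parts of `D` times the square of the denominator -/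
theorem D_parts {a b : ℝ} (h : Complex.sinh ((a : ℂ) + b * Complex.I) ≠ 0) (k : ℕ) :
    (D ((a : ℂ) + b * Complex.I) k).im * (Real.sinh a ^ 2 + Real.sin b ^ 2) =
      Real.cosh (k * a) * Real.sin (k * b) * (Real.sinh a * Real.cos b) - Real.sinh (k * a) * Real.cos (k * b) * (Real.cosh a * Real.sin b) := by
  have h1 : D ((a : ℂ) + b * Complex.I) k * ((Real.sinh a ^ 2 + Real.sin b ^ 2 : ℝ) : ℂ) =
      Complex.sinh (((k * a : ℝ) : ℂ) + ((k * b : ℝ) : ℂ) * Complex.I) * (starRingEnd ℂ) (Complex.sinh ((a : ℂ) + b * Complex.I)) := by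
    rw [← norm_sinh_sq, ← nat_mul_zeta]
    unfold D
    have h2 : ((‖Complex.sinh ((a : ℂ) + b * Complex.I)‖ ^ 2 : ℝ) : ℂ) =
        Complex.sinh ((a : ℂ) + b * Complex.I) * (starRingEnd ℂ) (Complex.sinh ((a : ℂ) + b * Complex.I)) := by
      rw [Complex.mul_conj, Complex.sq_norm]
    rw [h2]
    field_simp
  have h2 := congrArg Complex.im h1
  rw [Complex.im_mul_ofReal, Complex.mul_im, Complex.conj_re, Complex.conj_im] at h2
  obtain ⟨r1, i1⟩ := sinh_re_im (k * a) (k * b)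
  obtain ⟨r2, i2⟩ := sinh_re_im a b
  rw [r1, i1, r2, i2] at h2
  rw [h2]
  ring


/-- the plane geometry behind `q_disc` -/
theorem angle_ineq {u v P T η : ℝ} (hu : 0 ≤ u) (hv : η * u ≤ v) (hη : 0 ≤ η) (hΔ : 0 ≤ T * u - P * v) (hj : 0 ≤ T - η * P)
    (hρ : 0 ≤ P + η * T) : (T * u - P * v) ^ 2 * (1 + η ^ 2) ≤ (T - η * P) ^ 2 * (u ^ 2 + v ^ 2) := by
  obtain ⟨w, hw⟩ : ∃ w, w = v - η * u := ⟨_, rfl⟩
  have hw0 : 0 ≤ w := by linarith
  obtain rfl : v = η * u + w := by linarith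
  obtain ⟨j, hj'⟩ : ∃ j, j = T - η * P := ⟨_, rfl⟩
  obtain ⟨ρ, hρ'⟩ : ∃ ρ, ρ = P + η * T := ⟨_, rfl⟩
  have e1 : T * u - P * (η * u + w) = u * j - P * w := by rw [hj']; ring
  have e2 : (1 + η ^ 2) * P = ρ - η * j := by rw [hj', hρ']; ring
  rw [← hj'] at hj ⊢
  rw [← hρ'] at hρ
  rw [e1] at hΔ ⊢
  have e3 : j ^ 2 * (u ^ 2 + (η * u + w) ^ 2) - (u * j - P * w) ^ 2 * (1 + η ^ 2) =
      w * (w * j ^ 2 + 2 * u * j * ρ - (1 + η ^ 2) * P * (P * w)) + 2 * w * u * j * ((1 + η ^ 2) * P - (ρ - η * j)) := by ring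
  have e4 : 0 ≤ w * j ^ 2 + 2 * u * j * ρ - (1 + η ^ 2) * P * (P * w) := by
    have huj : 0 ≤ u * j * ρ := by positivity
    rcases le_or_gt 0 P with hP | hP
    · have h1 : 0 ≤ (1 + η ^ 2) * P := by positivity
      have h2 : (1 + η ^ 2) * P * (P * w) ≤ (1 + η ^ 2) * P * (u * j) := mul_le_mul_of_nonneg_left (by linarith) h1
      rw [e2] at h2 ⊢
      have h3 : 0 ≤ η * j * (u * j) := by positivity
      have h4 : 0 ≤ w * j ^ 2 := by positivity
      nlinarith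
    · have h1 : (1 + η ^ 2) * P < 0 := mul_neg_of_pos_of_neg (by positivity) hP
      have h2 : 0 ≤ η * j - ρ := by linarith
      have h3 : (η * j - ρ) ^ 2 ≤ (η * j) ^ 2 := pow_le_pow_left₀ h2 (by linarith) 2
      have h4 : ((1 + η ^ 2) * P) ^ 2 ≤ (η * j) ^ 2 := by
        rw [e2]
        have : (ρ - η * j) ^ 2 = (η * j - ρ) ^ 2 := by ring
        rw [this]
        exact h3
      have h5 : (1 + η ^ 2) * ((1 + η ^ 2) * P * P) ≤ (1 + η ^ 2) * j ^ 2 := by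
        have : (1 + η ^ 2) * ((1 + η ^ 2) * P * P) = ((1 + η ^ 2) * P) ^ 2 := by ring
        rw [this]
        refine h4.trans ?_
        have := sq_nonneg j
        nlinarith
      have h6 : (1 + η ^ 2) * P * P ≤ j ^ 2 := le_of_mul_le_mul_left h5 (by positivity)
      have h7 := mul_le_mul_of_nonneg_right h6 hw0
      nlinarith
  have e5 := mul_nonneg hw0 e4
  rw [e2, sub_self, mul_zero, add_zero] at e3
  rw [e2] at e5
  linarith

theorem q_disc {a η : ℝ} (ha : 0 < a) (ha2 : a ≤ 1 / 2) (hη : 0 ≤ η) (h3 : η ≤ √3) {r : ℕ} (hr : 1 ≤ r) (hx : √3 * (r * a) ≤ Real.pi)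
    (hj : 0 ≤ js (r * a) η) (hρ : 0 ≤ rs (r * a) η) :
    (D ((a : ℂ) + (η * a : ℝ) * Complex.I) r).im ^ 2 * (js (r * a) η ^ 2 + rs (r * a) η ^ 2) ≤
      js (r * a) η ^ 2 * ‖D ((a : ℂ) + (η * a : ℝ) * Complex.I) r‖ ^ 2 := by
  obtain ⟨b, hb⟩ : ∃ b, b = η * a := ⟨_, rfl⟩
  rw [← hb]
  have hb0 : 0 ≤ b := by rw [hb]; positivity
  have hr1 : (1 : ℝ) ≤ r := by exact_mod_cast hr
  have hs : 0 < Real.sinh a := Real.sinh_pos_iff.2 ha
  have hN : 0 < Real.sinh a ^ 2 + Real.sin b ^ 2 := by positivity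
  have hz : Complex.sinh ((a : ℂ) + b * Complex.I) ≠ 0 := by
    intro h
    have := norm_sinh_sq a b
    rw [h, norm_zero] at this
    rw [← this] at hN
    norm_num at hN
  have hrb : r * b ≤ Real.pi := by
    refine le_trans ?_ hx
    rw [hb]
    have : η * (r * a) ≤ √3 * (r * a) := mul_le_mul_of_nonneg_right h3 (by positivity)
    linarith
  have hbpi : b ≤ Real.pi := by nlinarith
  have him := D_im_nonneg ha.le hb0 hz r hrb
  have hparts := D_parts hz r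
  have hnorm := normD_sq (a := a) (b := b) r
  obtain ⟨I, hI⟩ : ∃ I, I = (D ((a : ℂ) + b * Complex.I) r).im := ⟨_, rfl⟩
  obtain ⟨G, hG⟩ : ∃ G, G = ‖D ((a : ℂ) + b * Complex.I) r‖ ^ 2 := ⟨_, rfl⟩
  rw [← hI] at him hparts ⊢
  rw [← hG] at hnorm ⊢
  obtain ⟨N, hNd⟩ : ∃ N, N = Real.sinh a ^ 2 + Real.sin b ^ 2 := ⟨_, rfl⟩
  rw [← hNd] at hparts hnorm hN
  have hy : η * (r * a) = r * b := by rw [hb]; ring
  unfold js rs at *
  rw [hy] at hj hρ ⊢
  obtain ⟨P, hP⟩ : ∃ P, P = Real.sinh (r * a) * Real.cos (r * b) := ⟨_, rfl⟩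
  obtain ⟨T, hT⟩ : ∃ T, T = Real.cosh (r * a) * Real.sin (r * b) := ⟨_, rfl⟩
  obtain ⟨u, hu⟩ : ∃ u, u = Real.sinh a * Real.cos b := ⟨_, rfl⟩
  obtain ⟨v, hv⟩ : ∃ v, v = Real.cosh a * Real.sin b := ⟨_, rfl⟩
  rw [← hP, ← hT] at hj hρ hparts ⊢
  rw [← hu, ← hv] at hparts
  have hNuv : N = u ^ 2 + v ^ 2 := by
    rw [hNd, hu, hv]
    have h1 := Real.cosh_sq a
    have h2 := Real.sin_sq_add_cos_sq b
    nlinarith
  have hPT : Real.sinh (r * a) ^ 2 + Real.sin (r * b) ^ 2 = P ^ 2 + T ^ 2 := by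
    rw [hP, hT]
    have h1 := Real.cosh_sq (r * a)
    have h2 := Real.sin_sq_add_cos_sq (r * b)
    nlinarith
  rw [hPT] at hnorm
  have hΔ : 0 ≤ T * u - P * v := by
    rw [← hparts]
    exact mul_nonneg him hN.le
  have hsq3 : √3 ≤ 2 := by
    rw [Real.sqrt_le_left (by norm_num)]
    norm_num
  have hb2 : b < Real.pi / 2 := by
    have : b ≤ 1 := by
      rw [hb]
      calc η * a ≤ 2 * (1 / 2) := mul_le_mul (h3.trans hsq3) ha2 ha.le (by norm_num)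
        _ = 1 := by norm_num
    linarith [Real.pi_gt_three]
  have hc : 0 < Real.cos b := Real.cos_pos_of_mem_Ioo ⟨by linarith [Real.pi_pos], hb2⟩
  have hu0 : 0 ≤ u := by rw [hu]; positivity
  have huv : η * u ≤ v := by
    have h1 := sinh_le_mul_cosh ha.le
    have h2 := mul_cos_le_sin hb0 hb2
    have h4 : η * u * a ≤ v * a := by
      calc η * u * a = b * Real.cos b * Real.sinh a := by rw [hu, hb]; ring
        _ ≤ Real.sin b * Real.sinh a := mul_le_mul_of_nonneg_right h2 hs.le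
        _ ≤ Real.sin b * (a * Real.cosh a) := mul_le_mul_of_nonneg_left h1 (Real.sin_nonneg_of_nonneg_of_le_pi hb0 hbpi)
        _ = v * a := by rw [hv]; ring
    exact le_of_mul_le_mul_right h4 ha
  have key := angle_ineq hu0 huv hη hΔ hj hρ
  -- multiply by N ^ 2
  have h5 : (T - η * P) ^ 2 + (P + η * T) ^ 2 = (1 + η ^ 2) * (P ^ 2 + T ^ 2) := by ring
  rw [h5, hnorm]
  have hPT0 : 0 ≤ P ^ 2 + T ^ 2 := by positivity
  have h6 : I = (T * u - P * v) / N := by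
    rw [eq_div_iff hN.ne']
    exact hparts
  rw [h6, div_pow, div_mul_eq_mul_div, mul_div_assoc', div_le_div_iff₀ (by positivity) hN]
  rw [← hNuv] at key
  calc (T * u - P * v) ^ 2 * ((1 + η ^ 2) * (P ^ 2 + T ^ 2)) * N = ((T * u - P * v) ^ 2 * (1 + η ^ 2)) * ((P ^ 2 + T ^ 2) * N) := by ring
    _ ≤ ((T - η * P) ^ 2 * N) * ((P ^ 2 + T ^ 2) * N) := mul_le_mul_of_nonneg_right key (mul_nonneg hPT0 hN.le)
    _ = (T - η * P) ^ 2 * (P ^ 2 + T ^ 2) * N ^ 2 := by ring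

end Pool.Agent.Helper27.TW
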