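import Pool.Agent.Helper27.TW.Fin
import Pool.Agent.Helper54.TW.Path

/-!
# All T-words
-/

set_option autoImplicit false

namespace Pool.Agent.Helper27.TW

/-- **all words in the `T_r` with at least one `T_(n+1)`** -/
theorem freeS {n : ℕ} {A : List ℕ} (hA : ∀ r ∈ A, r ≤ n + 1) (hn : n + 1 ∈ A) :
    H52TW.FreeS n (Pool.Agent.Helper69.LZ.wd A) :=
  freeS_of_path Pool.Agent.Helper54.TW.exists_path hA hn

end Pool.Agent.Helper27.TW
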