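import Pool.Agent.Helper27.TW.Disc

/-!
# All T-words: the inequality (SS) for small `a`, assembly
-/

set_option autoImplicit false

namespace Pool.Agent.Helper27.TW

open Complex Pool.Agent.Helper27.LZ

/-! ### the part `l = 0` -/

theorem D_ineq_lt {t : ℂ} {a b : ℝ} {r : ℕ} (h : Dat t a b r) (hr : 2 ≤ r) :
    2 * |(D ((a : ℂ) + b * Complex.I) r).im| < Real.sinh a * (‖D ((a : ℂ) + b * Complex.I) r‖ ^ 2 - 1) := by
  obtain ⟨hb1, hb2, hb3, hb4⟩ := h.bounds (by omega)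
  have hr2 : (2 : ℝ) ≤ r := by exact_mod_cast hr
  have hs : 0 < Real.sinh a := Real.sinh_pos_iff.2 h.ha
  have him := D_im h.ha.le h.hz (R := r * a) r le_rfl
  have hyb : (r : ℝ) * |b| ≤ 1 := by
    have h1 : 0 ≤ (r : ℝ) * |b| := by positivity
    nlinarith
  have hre := D_re h.hz r hyb
  obtain ⟨C, hC⟩ : ∃ C, C = Real.cosh (r * a) := ⟨_, rfl⟩
  obtain ⟨σ, hσ⟩ : ∃ σ, σ = |Real.sin b| := ⟨_, rfl⟩
  rw [← hC, ← hσ] at him
  rw [← hC] at hb4
  rw [← hσ] at hb2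
  have hC0 : 0 < C := by rw [hC]; exact Real.cosh_pos _
  have hσ0 : 0 ≤ σ := by rw [hσ]; exact abs_nonneg _
  have hC1 : C ≤ 1061 / 1000 := by
    by_contra h1
    push Not at h1
    nlinarith
  have hσ1 : r * σ ≤ 613 / 1000 := by
    by_contra h1
    push Not at h1
    nlinarith
  have hr3 : (0 : ℝ) ≤ (r : ℝ) ^ 2 - 1 := by nlinarith
  have h1 : 2 * |(D ((a : ℂ) + b * Complex.I) r).im| ≤ Real.sinh a * (434 / 1000 * ((r : ℝ) ^ 2 - 1)) := by
    have e : C * Real.sinh a * σ * (((r : ℝ) ^ 3 - r) / 3) = Real.sinh a * (C * (r * σ) * (((r : ℝ) ^ 2 - 1) / 3)) := by ring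
    rw [e] at him
    have h2 : C * (r * σ) ≤ 1061 / 1000 * (613 / 1000) := by gcongr
    have h3 : C * (r * σ) * (((r : ℝ) ^ 2 - 1) / 3) ≤ 217 / 1000 * ((r : ℝ) ^ 2 - 1) := by
      have h4 := mul_le_mul_of_nonneg_right h2 (by positivity : 0 ≤ ((r : ℝ) ^ 2 - 1) / 3)
      nlinarith
    have h5 := mul_le_mul_of_nonneg_left h3 hs.le
    nlinarith
  have h2 : 843 / 1000 * (r : ℝ) ≤ (D ((a : ℂ) + b * Complex.I) r).re := by
    have e : b ^ 2 * (((r : ℝ) ^ 3 - r) / 6) = r * ((r * |b|) ^ 2 / 6) - r * b ^ 2 / 6 := by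
      rw [mul_pow, sq_abs]
      ring
    rw [e] at hre
    have h3 : 0 ≤ r * b ^ 2 / 6 := by positivity
    have h4 : r * ((r * |b|) ^ 2 / 6) ≤ r * (931 / 1000 / 6) := by gcongr
    linarith
  have h3 : (843 / 1000 * (r : ℝ)) ^ 2 ≤ ‖D ((a : ℂ) + b * Complex.I) r‖ ^ 2 := by
    apply pow_le_pow_left₀ (by positivity)
    exact h2.trans ((le_abs_self _).trans (Complex.abs_re_le_norm _))
  refine h1.trans_lt ?_
  apply mul_lt_mul_of_pos_left _ hs
  nlinarith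

theorem sqrt3_le : √3 ≤ 17321 / 10000 := by
  rw [Real.sqrt_le_left (by norm_num)]
  norm_num

theorem star0 {a η : ℝ} (ha : 0 < a) (ha2 : a ≤ 1 / 2) (hη : 0 ≤ η) (h3 : η ≤ √3) {r : ℕ} (hr : 2 ≤ r) (hx : r * a ≤ 17 / 50) :
    ‖D ((a : ℂ) + (η * a : ℝ) * Complex.I) r ^ 2 - 1‖ + Real.cosh a < ‖D ((a : ℂ) + (η * a : ℝ) * Complex.I) r‖ ^ 2 * Real.cosh a := by
  have hs : 0 < Real.sinh a := Real.sinh_pos_iff.2 ha
  have hc : 0 < Real.cosh a := Real.cosh_pos a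
  have hη2 := eta_sq hη h3
  have hsq := sin_le_eta ha hη
  have hN : 0 < Real.sinh a ^ 2 + Real.sin (η * a) ^ 2 := by positivity
  have hz : Complex.sinh ((a : ℂ) + (η * a : ℝ) * Complex.I) ≠ 0 := by
    intro h
    have := norm_sinh_sq a (η * a)
    rw [h, norm_zero] at this
    rw [← this] at hN
    norm_num at hN
  have hdat : Dat (Complex.exp (-2 * ((a : ℂ) + (η * a : ℝ) * Complex.I))) a (η * a) r := by
    refine ⟨ha, ?_, rfl, ?_, hz, ?_, ?_⟩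
    · rw [abs_of_nonneg (by positivity)]
      have : η * a ≤ 2 * (1 / 2) := mul_le_mul (h3.trans (sqrt3_le.trans (by norm_num))) ha2 ha.le (by norm_num)
      linarith [Real.pi_gt_three]
    · rw [Complex.norm_exp]
      congr 1
      simp
    · refine hsq.trans ?_
      have := sq_nonneg (Real.sinh a)
      nlinarith
    · have hx0 : 0 ≤ (r : ℝ) * a := by positivity
      have e : Real.sinh (r * a) ^ 2 = (Real.exp (2 * (r * a)) + Real.exp (-(2 * (r * a))) - 2) / 4 := by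
        rw [Real.sinh_eq, div_pow, sub_sq]
        have e1 : Real.exp (r * a) * Real.exp (-(r * a)) = 1 := by rw [← Real.exp_add, add_neg_cancel, Real.exp_zero]
        have e2 : Real.exp (r * a) ^ 2 = Real.exp (2 * (r * a)) := by rw [← Real.exp_nat_mul]; norm_num
        have e3 : Real.exp (-(r * a)) ^ 2 = Real.exp (-(2 * (r * a))) := by rw [← Real.exp_nat_mul]; congr 1; push_cast; ring
        rw [e2, e3]
        linear_combination (-1 / 2 : ℝ) * e1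
      rw [e]
      obtain ⟨u, hu⟩ : ∃ u, u = Real.exp (-(2 * (r * a))) := ⟨_, rfl⟩
      have hu0 : 0 < u := by rw [hu]; exact Real.exp_pos _
      have hu1 : u ≤ 1 := by
        rw [hu, Real.exp_le_one_iff]
        linarith
      have hhu : 1 / 2 ≤ u := by
        rw [hu, one_div, ← Real.exp_log (by norm_num : (0 : ℝ) < 2⁻¹)]
        apply Real.exp_le_exp.2
        rw [Real.log_inv]
        have := Real.log_two_gt_d9
        linarith
      have e5 : Real.exp (2 * (r * a)) = 1 / u := by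
        rw [hu, Real.exp_neg, one_div, inv_inv]
      rw [e5, ← hu]
      have h6 : 1 / u + u ≤ 5 / 2 := by
        rw [div_add' _ _ _ hu0.ne', div_le_iff₀ hu0]
        nlinarith
      linarith
  have h1 := D_ineq_lt hdat hr
  obtain ⟨w, hw⟩ : ∃ w, w = D ((a : ℂ) + (η * a : ℝ) * Complex.I) r := ⟨_, rfl⟩
  rw [← hw] at h1 ⊢
  have hm : 0 < ‖w‖ ^ 2 - 1 := by
    by_contra h2
    push Not at h2
    have h3 : Real.sinh a * (‖w‖ ^ 2 - 1) ≤ 0 := mul_nonpos_of_nonneg_of_nonpos hs.le h2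
    have := abs_nonneg w.im
    linarith
  have h2 : ‖w ^ 2 - 1‖ < Real.cosh a * (‖w‖ ^ 2 - 1) := by
    apply lt_of_pow_lt_pow_left₀ 2 (by positivity)
    rw [norm_sq_sub_one, mul_pow, Real.cosh_sq a]
    have h3 : (2 * |w.im|) ^ 2 < (Real.sinh a * (‖w‖ ^ 2 - 1)) ^ 2 := pow_lt_pow_left₀ h1 (by positivity) (by norm_num)
    rw [mul_pow, sq_abs, mul_pow] at h3
    nlinarith
  linarith

/-! ### general facts about `D` -/

theorem cosh_sub_one (x : ℝ) : Real.cosh x = 1 + 2 * Real.sinh (x / 2) ^ 2 := by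
  have h := Real.cosh_two_mul (x / 2)
  have h2 := Real.cosh_sq (x / 2)
  rw [show 2 * (x / 2) = x by ring] at h
  linarith

theorem sinh_sq_le_sinh_sq {x y : ℝ} (h : |x| ≤ y) : Real.sinh x ^ 2 ≤ Real.sinh y ^ 2 := by
  have h0 : 0 ≤ y := (abs_nonneg x).trans h
  have h1 : |Real.sinh x| = Real.sinh |x| := by
    rcases abs_cases x with ⟨h2, h3⟩ | ⟨h2, h3⟩
    · rw [h2, abs_of_nonneg (Real.sinh_nonneg_iff.2 h3)]
    · rw [h2, Real.sinh_neg, abs_of_neg (Real.sinh_neg_iff.2 h3)]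
  rw [← sq_abs, h1]
  exact pow_le_pow_left₀ (Real.sinh_nonneg_iff.2 (abs_nonneg x)) (Real.sinh_le_sinh.2 h) 2

/-- **top** -/
theorem star2 {l : ℝ → ℝ} {ε : ℝ} (hp : Path l ε) {a η : ℝ} (ha : 0 < a) (haε : a / 2 ≤ ε) (hη : 0 ≤ η) (h3 : η ≤ √3) {r : ℕ}
    (hx : 179 / 100 ≤ r * a) :
    ‖D ((a : ℂ) + (η * a : ℝ) * Complex.I) r ^ 2 - 1‖ + Real.cosh (l (r * a) + l ((r + 1) * a) - a) <
      ‖D ((a : ℂ) + (η * a : ℝ) * Complex.I) r‖ ^ 2 * Real.cosh (a + l ((r + 1) * a) - l (r * a)) := by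
  obtain ⟨x, hxd⟩ : ∃ x, x = r * a := ⟨_, rfl⟩
  have e1 : ((r : ℝ) + 1) * a = x + a := by rw [hxd]; ring
  have hge := normD_ge' ha hη h3 r
  rw [e1, ← hxd]
  rw [← hxd] at hge hx
  obtain ⟨h4, h5⟩ := hp.top x hx
  have h6 := h4 (x + a) (by linarith)
  have h7 := hp.lip x (x + a) (by linarith)
  obtain ⟨δ, hδ⟩ : ∃ δ, δ = l (x + a) - l x := ⟨_, rfl⟩
  have e2 : l x + l (x + a) - a = 2 * (l x + (δ - a) / 2) := by rw [hδ]; ring
  have e3 : a + l (x + a) - l x = a + δ := by rw [hδ]; ring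
  rw [e2, e3]
  have hδ1 : a ≤ δ := by linarith
  have hδ2 : δ ≤ 2 * a := by linarith
  obtain ⟨w, hw⟩ : ∃ w, w = D ((a : ℂ) + (η * a : ℝ) * Complex.I) r := ⟨_, rfl⟩
  rw [← hw] at hge ⊢
  have hl0 : 0 ≤ l x := by
    have h8 := hp.mono 0 x (by linarith)
    rw [hp.zero 0 (by norm_num)] at h8
    exact h8
  have h8 : ‖w ^ 2 - 1‖ ≤ ‖w‖ ^ 2 + 1 := by
    refine (norm_sub_le _ _).trans ?_
    rw [norm_pow, norm_one]
  have h9 : Real.cosh (2 * (l x + (δ - a) / 2)) ≤ 2 * Real.cosh (l x + ε) ^ 2 - 1 := by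
    rw [Real.cosh_two_mul]
    have h10 : Real.sinh (l x + (δ - a) / 2) ^ 2 ≤ Real.sinh (l x + ε) ^ 2 := by
      apply sinh_sq_le_sinh_sq
      rw [abs_of_nonneg (by linarith)]
      linarith
    have h11 := Real.cosh_sq (l x + (δ - a) / 2)
    have h12 := Real.cosh_sq (l x + ε)
    linarith
  have hs : 0 < Real.sinh a := Real.sinh_pos_iff.2 ha
  have h10 : 1 + 2 * Real.sinh a ^ 2 ≤ Real.cosh (a + δ) := by
    rw [cosh_sub_one (a + δ)]
    have : Real.sinh a ^ 2 ≤ Real.sinh ((a + δ) / 2) ^ 2 := by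
      apply sinh_sq_le_sinh_sq
      rw [abs_of_pos ha]
      linarith
    linarith
  have hw2 : 0 ≤ ‖w‖ ^ 2 := sq_nonneg _
  have h11 : ‖w‖ ^ 2 * (1 + 2 * Real.sinh a ^ 2) ≤ ‖w‖ ^ 2 * Real.cosh (a + δ) := mul_le_mul_of_nonneg_left h10 hw2
  have h12 : 4 * Real.cosh (l x + ε) ^ 2 < Real.sinh x ^ 2 := by
    have h13 : 0 < Real.cosh (l x + ε) := Real.cosh_pos _
    have h14 := pow_lt_pow_left₀ h5 (by positivity) (n := 2) (by norm_num)
    rw [mul_pow] at h14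
    linarith
  nlinarith

/-! ### the middle part -/

theorem js_rs_sq (x η : ℝ) : js x η ^ 2 + rs x η ^ 2 = (1 + η ^ 2) * (Real.sinh x ^ 2 + Real.sin (η * x) ^ 2) := by
  unfold js rs
  have h1 := Real.cosh_sq x
  have h2 := Real.sin_sq_add_cos_sq (η * x)
  obtain ⟨c, hc⟩ : ∃ c, c = Real.cosh x := ⟨_, rfl⟩
  obtain ⟨s, hs⟩ : ∃ s, s = Real.sinh x := ⟨_, rfl⟩
  obtain ⟨γ, hγ⟩ : ∃ γ, γ = Real.cos (η * x) := ⟨_, rfl⟩
  obtain ⟨σ, hσ⟩ : ∃ σ, σ = Real.sin (η * x) := ⟨_, rfl⟩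
  rw [← hc, ← hs] at h1
  rw [← hγ, ← hσ] at h2
  rw [← hc, ← hs, ← hγ, ← hσ]
  linear_combination (1 + η ^ 2) * σ ^ 2 * h1 + (1 + η ^ 2) * s ^ 2 * h2

theorem q_le {a η : ℝ} (hE : Eta) (ha : 0 < a) (ha2 : a ≤ 1 / 2) (hη : 0 ≤ η) (h3 : η ≤ √3) {r : ℕ} (hr : 2 ≤ r) (hx : √3 * (r * a) ≤ Real.pi) :
    (D ((a : ℂ) + (η * a : ℝ) * Complex.I) r).im ^ 2 / ‖D ((a : ℂ) + (η * a : ℝ) * Complex.I) r‖ ^ 2 ≤ Q (r * a) := by
  have hr0 : (0 : ℝ) < r := by
    have : 0 < r := by omega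
    exact_mod_cast this
  have hx0 : 0 < r * a := by positivity
  have hone := one_le_normD ha hη h3 hr
  obtain ⟨w, hw⟩ : ∃ w, w = D ((a : ℂ) + (η * a : ℝ) * Complex.I) r := ⟨_, rfl⟩
  have hG : 0 < ‖w‖ ^ 2 := by
    rw [hw]
    positivity
  by_cases hc : 0 ≤ rs (r * a) (√3)
  · obtain ⟨e1, e2, e3⟩ := hE.q (r * a) η hη h3 hx0 hx hc
    have hd := q_disc ha ha2 hη h3 (by omega) hx e1 e2
    unfold Q
    rw [if_pos hc]
    rw [← hw] at hd ⊢
    have hs : 0 < Real.sinh (r * a) := Real.sinh_pos_iff.2 hx0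
    have hp1 : 0 < js (r * a) η ^ 2 + rs (r * a) η ^ 2 := by
      rw [js_rs_sq]
      positivity
    have hp3 : 0 < js (r * a) (√3) ^ 2 + rs (r * a) (√3) ^ 2 := by
      rw [js_rs_sq]
      positivity
    have h1 : w.im ^ 2 / ‖w‖ ^ 2 ≤ js (r * a) η ^ 2 / (js (r * a) η ^ 2 + rs (r * a) η ^ 2) := by
      rw [div_le_div_iff₀ hG hp1]
      exact hd
    refine h1.trans ?_
    rw [div_le_div_iff₀ hp1 hp3]
    have h4 : (js (r * a) η * rs (r * a) (√3)) ^ 2 ≤ (js (r * a) (√3) * rs (r * a) η) ^ 2 :=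
      pow_le_pow_left₀ (mul_nonneg e1 hc) e3 2
    rw [mul_pow, mul_pow] at h4
    nlinarith
  · unfold Q
    rw [if_neg hc, ← hw, div_le_one hG, Complex.sq_norm, Complex.normSq_apply]
    nlinarith [mul_self_nonneg w.re]

theorem star1 {l : ℝ → ℝ} {ε : ℝ} (hp : Path l ε) (hE : Eta) {a η : ℝ} (ha : 0 < a) (haε : a ≤ ε) (ha2 : a ≤ 1 / 100) (hη : 0 ≤ η) (h3 : η ≤ √3)
    {r : ℕ} (hr : 2 ≤ r) (hx : 33 / 100 ≤ r * a) (hx2 : (r + 1) * a ≤ 9 / 5) :
    ‖D ((a : ℂ) + (η * a : ℝ) * Complex.I) r ^ 2 - 1‖ + Real.cosh (l (r * a) + l ((r + 1) * a) - a) <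
      ‖D ((a : ℂ) + (η * a : ℝ) * Complex.I) r‖ ^ 2 * Real.cosh (a + l ((r + 1) * a) - l (r * a)) := by
  have e1 : ((r : ℝ) + 1) * a = r * a + a := by ring
  have hpi : √3 * (r * a) ≤ Real.pi := by
    have h1 : √3 * (r * a) ≤ 17321 / 10000 * (9 / 5) := by
      apply mul_le_mul sqrt3_le (by linarith) (by positivity) (by norm_num)
    linarith [Real.pi_gt_d2]
  have hr0 : (0 : ℝ) < r := by
    have : 0 < r := by omega
    exact_mod_cast this
  have hx0 : 0 < r * a := by positivity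
  have hge := normD_ge ha hη r
  have hge' := normD_ge' ha hη h3 r
  have hS := hE.s (r * a) η hη h3 hx0 hpi
  have hQ := q_le hE ha (by linarith) hη h3 hr hpi
  have hone := one_le_normD ha hη h3 hr
  rw [e1]
  obtain ⟨x, hxd⟩ : ∃ x, x = r * a := ⟨_, rfl⟩
  rw [e1] at hx2
  rw [← hxd] at hge hge' hS hQ hx hx2 hx0 ⊢
  obtain ⟨w, hw⟩ : ∃ w, w = D ((a : ℂ) + (η * a : ℝ) * Complex.I) r := ⟨_, rfl⟩
  rw [← hw] at hge hge' hQ hone ⊢
  obtain ⟨lam, hl1, hl2, hl3, hl4⟩ := hp.mid x hx (by linarith)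
  have h6 := hl3 (x + a) (by linarith) hx2
  have h7 := hp.lip x (x + a) (by linarith)
  have h7' := hp.mono x (x + a) (by linarith)
  obtain ⟨δ, hδ⟩ : ∃ δ, δ = l (x + a) - l x := ⟨_, rfl⟩
  have e2 : l x + l (x + a) - a = 2 * (l x + (δ - a) / 2) := by rw [hδ]; ring
  have e3 : a + l (x + a) - l x = a + δ := by rw [hδ]; ring
  rw [e2, e3]
  have hδ1 : lam * a ≤ δ := by
    have : lam * (x + a - x) = lam * a := by ring
    linarith
  have hδ2 : δ ≤ 2 * a := by linarith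
  have hδ0 : 0 ≤ δ := by linarith
  have hl0 : 0 ≤ l x := by
    have h8 := hp.mono 0 x (by linarith)
    rw [hp.zero 0 (by norm_num)] at h8
    exact h8
  have hwpos : 0 < ‖w‖ := by linarith
  have h8 := norm_sq_sub_one_le w hwpos
  have h9 : Real.cosh (2 * (l x + (δ - a) / 2)) ≤ 1 + 2 * Real.sinh (l x + ε) ^ 2 := by
    rw [cosh_sub_one, show 2 * (l x + (δ - a) / 2) / 2 = l x + (δ - a) / 2 by ring]
    have h10 : Real.sinh (l x + (δ - a) / 2) ^ 2 ≤ Real.sinh (l x + ε) ^ 2 := by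
      apply sinh_sq_le_sinh_sq
      rw [abs_le]
      constructor <;> linarith
    linarith
  have hs : 0 < Real.sinh a := Real.sinh_pos_iff.2 ha
  have h10 : 1 + (a + δ) ^ 2 / 2 ≤ Real.cosh (a + δ) := by
    rw [cosh_sub_one (a + δ)]
    have h11 : (a + δ) / 2 ≤ Real.sinh ((a + δ) / 2) := (Real.self_le_sinh_iff).2 (by linarith)
    have h12 := pow_le_pow_left₀ (by linarith : 0 ≤ (a + δ) / 2) h11 2
    nlinarith
  obtain ⟨G, hG⟩ : ∃ G, G = ‖w‖ ^ 2 := ⟨_, rfl⟩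
  have hG1 : 1 ≤ G := by
    rw [hG]
    exact one_le_pow₀ hone
  rw [← hG] at hge hge' hQ h8 ⊢
  obtain ⟨κ, hκ⟩ : ∃ κ, κ = Real.sinh a ^ 2 := ⟨_, rfl⟩
  rw [← hκ] at hge hge'
  have hκ0 : 0 < κ := by rw [hκ]; positivity
  -- κ is of the size of a ^ 2
  have hκ1 : κ ≤ a ^ 2 * (1 + κ) := by
    have h11 := pow_le_pow_left₀ hs.le (sinh_le_mul_cosh ha.le) 2
    rw [mul_pow, Real.cosh_sq, ← hκ] at h11
    linarith
  have ha3 : a ^ 2 ≤ 1 / 10000 := by
    have h11 := pow_le_pow_left₀ ha.le ha2 2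
    norm_num at h11 ⊢
    exact h11
  have hκ2 : κ ≤ 2 * a ^ 2 := by
    have h11 : a ^ 2 * κ ≤ 1 / 10000 * κ := mul_le_mul_of_nonneg_right ha3 hκ0.le
    linarith only [h11, hκ1, hκ0]
  have hκ3 : κ ≤ ε / 50 := by
    have h11 : a * a ≤ ε * (1 / 100) := mul_le_mul haε ha2 ha.le hp.eps.le
    linarith only [h11, hκ2]
  have hκ4 : κ ≤ 1 / 5000 := by linarith
  -- lower bound of G a²
  have hsst : sst x ≤ κ * G := hS.trans hge
  have hsst0 : 0 ≤ sst x := by unfold sst; positivity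
  have hGa : sst x * (1 - κ) ≤ G * a ^ 2 := by
    have h11 : κ * G ≤ G * a ^ 2 * (1 + κ) := by
      have h14 := mul_le_mul_of_nonneg_right hκ1 (by linarith only [hG1] : 0 ≤ G)
      linarith only [h14]
    have h12 : sst x * (1 - κ) ≤ G * a ^ 2 * (1 + κ) * (1 - κ) := mul_le_mul_of_nonneg_right (hsst.trans h11) (by linarith)
    have h13 : 0 ≤ G * a ^ 2 * κ ^ 2 := by positivity
    linarith only [h12, h13]
  have hsst4 : sst x ≤ 37 / 10 := by
    unfold sst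
    have h11 : Real.sinh x ≤ 37 / 10 := by
      have h12 : Real.sinh x ≤ Real.exp 2 / 2 := by
        rw [Real.sinh_eq]
        have h13 : Real.exp x ≤ Real.exp 2 := Real.exp_le_exp.2 (by linarith)
        have h14 := Real.exp_pos (-x)
        linarith
      have h15 : Real.exp 2 ≤ 74 / 10 := by
        have h16 : Real.exp 2 = Real.exp 1 ^ 2 := by
          rw [← Real.exp_nat_mul]
          norm_num
        rw [h16]
        have h17 : Real.exp 1 ≤ 272 / 100 := by linarith only [Real.exp_one_lt_d9]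
        have h18 := pow_le_pow_left₀ (Real.exp_pos 1).le h17 2
        norm_num at h18 ⊢
        linarith only [h18]
      linarith
    have h19 : 0 ≤ Real.sinh x := Real.sinh_nonneg_iff.2 hx0.le
    have h20 := Real.sin_sq_le_one (√3 * x)
    have h21 := pow_le_pow_left₀ h19 h11 2
    norm_num at h21
    linarith only [h20, h21]
  -- upper bound of 1 / G
  have h1G : 1 / G ≤ 37 * κ := by
    rw [div_le_iff₀ (by linarith)]
    have h11 : x ≤ Real.sinh x := (Real.self_le_sinh_iff).2 hx0.le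
    have h12 : (33 / 100 : ℝ) ^ 2 ≤ Real.sinh x ^ 2 := pow_le_pow_left₀ (by norm_num) (hx.trans h11) 2
    linarith only [h12, hge']
  -- lower bound of the factor
  have hfac : (1 + lam) ^ 2 * a ^ 2 ≤ (a + δ) ^ 2 := by
    rw [← mul_pow]
    apply pow_le_pow_left₀ (by positivity)
    linarith
  have hfac2 : (1 + lam) ^ 2 ≤ 9 := by
    have h11 := pow_le_pow_left₀ (by linarith only [hl1] : 0 ≤ 1 + lam) (by linarith only [hl2] : 1 + lam ≤ 3) 2
    norm_num at h11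
    exact h11
  have hmain : (1 + lam) ^ 2 / 4 * sst x - 10 * κ ≤ G * (a + δ) ^ 2 / 4 := by
    have h11 : G * ((1 + lam) ^ 2 * a ^ 2) ≤ G * (a + δ) ^ 2 := mul_le_mul_of_nonneg_left hfac (by linarith)
    have h12 : (1 + lam) ^ 2 * (sst x * (1 - κ)) ≤ (1 + lam) ^ 2 * (G * a ^ 2) := mul_le_mul_of_nonneg_left hGa (by positivity)
    have h13 : (1 + lam) ^ 2 * (sst x * κ) ≤ 9 * (37 / 10 * κ) := by
      apply mul_le_mul hfac2 _ (by positivity) (by norm_num)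
      exact mul_le_mul_of_nonneg_right hsst4 hκ0.le
    have e4 : (1 + lam) ^ 2 * (sst x * (1 - κ)) = (1 + lam) ^ 2 * sst x - (1 + lam) ^ 2 * (sst x * κ) := by ring
    have e5 : G * ((1 + lam) ^ 2 * a ^ 2) = (1 + lam) ^ 2 * (G * a ^ 2) := by ring
    rw [e4] at h12
    rw [e5] at h11
    linarith only [h11, h12, h13, hκ0]
  have hfin : 0 < G * (a + δ) ^ 2 / 4 - (w.im ^ 2 / G + 1 / G + Real.sinh (l x + ε) ^ 2) := by
    have h31 := hp.eps
    linarith only [h31, hmain, hl4, h1G, hQ, hκ3]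
  have h21 : G * (1 + (a + δ) ^ 2 / 2) ≤ G * Real.cosh (a + δ) := mul_le_mul_of_nonneg_left h10 (by linarith)
  have e6 : G * (1 + (a + δ) ^ 2 / 2) = G + 2 * (G * (a + δ) ^ 2 / 4) := by ring
  rw [e6] at h21
  linarith only [h21, hfin, h8, h9]

/-- **TW4** -/
theorem star {l : ℝ → ℝ} {ε : ℝ} (hp : Path l ε) (hE : Eta) : ∃ a0 : ℝ, 0 < a0 ∧ ∀ a : ℝ, 0 < a → a ≤ a0 → ∀ η : ℝ, 0 ≤ η → η ≤ √3 →
    ∀ r : ℕ, 2 ≤ r → 1 ≤ ‖D ((a : ℂ) + (η * a : ℝ) * Complex.I) r‖ ∧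
      ‖D ((a : ℂ) + (η * a : ℝ) * Complex.I) r ^ 2 - 1‖ + Real.cosh (l (r * a) + l ((r + 1) * a) - a) <
        ‖D ((a : ℂ) + (η * a : ℝ) * Complex.I) r‖ ^ 2 * Real.cosh (a + l ((r + 1) * a) - l (r * a)) := by
  refine ⟨min ε (1 / 100), lt_min hp.eps (by norm_num), ?_⟩
  intro a ha ha0 η hη h3 r hr
  have haε : a ≤ ε := ha0.trans (min_le_left _ _)
  have ha2 : a ≤ 1 / 100 := ha0.trans (min_le_right _ _)
  refine ⟨one_le_normD ha hη h3 hr, ?_⟩
  have hr0 : (0 : ℝ) < r := by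
    have : 0 < r := by omega
    exact_mod_cast this
  have e1 : ((r : ℝ) + 1) * a = r * a + a := by ring
  rcases le_or_gt (((r : ℝ) + 1) * a) (17 / 50) with h1 | h1
  · have h2 : (r : ℝ) * a ≤ 17 / 50 := by linarith
    rw [hp.zero _ h1, hp.zero _ h2]
    have := star0 ha (by linarith) hη h3 hr h2
    simpa using this
  · rcases le_or_gt (((r : ℝ) + 1) * a) (9 / 5) with h2 | h2
    · exact star1 hp hE ha haε ha2 hη h3 hr (by linarith) h2
    · exact star2 hp ha (by linarith [hp.eps]) hη h3 (by linarith)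

end Pool.Agent.Helper27.TW
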